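import Pool.Agent.Zk8.KL.Core

/-!
# The bound for the algebraic combinations, and their periodicity
-/

set_option autoImplicit false

open CategoryTheory AlgebraicGeometry Finset TensorProduct

universe u v

namespace Pool.Agent.Zk8.KL

open Pool.Agent.H914 VarClass Obj WeilCohomology Pool.Agent.N190.CB Pool.Agent.N103.OC

variable {k : Type u} [Field k] {𝒱 : VarClass k} {ops : CycleOps 𝒱}
  {W : WeilCohomology.{u, v} ops} {X Y Z : 𝒱.Obj}

lemma card_arith (a N : ℕ) : ((range N).image fun r => a + 2 * r).card = N := by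
  rw [Finset.card_image_of_injective _ (fun x y h => by
    have h' : a + 2 * x = a + 2 * y := h
    omega), card_range]

/-- The degrees of the even classes. -/
lemma bound_even (hX : Pairs W X) (hodd : ¬ HasOdd W X) {a l : ℕ} (hal : a < l)
    (hl : W.gr X l ≠ ⊥) (hs : Same W X a l) (m : ℕ) :
    algDim W (pw X (m + 1)) ≤ X.dim := by
  classical
  have hle : Even l := by
    rcases Nat.even_or_odd l with h1 | h1
    · exact h1
    · exact absurd ⟨l, h1, hl⟩ hodd
  have hl2 : l ≤ 2 * X.dim := (dual_ne_bot hl).1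
  obtain ⟨l', rfl⟩ := hle
  set E : Finset ℕ := (range ((m + 1) * X.dim + 1)).image fun r => 0 + 2 * r with hE
  set D : Finset ℕ := (range (m * X.dim + 1)).image fun r => (l' + l') + 2 * r with hD
  have hDE : D ⊆ E := by
    intro x hx
    rw [hD, Finset.mem_image] at hx
    obtain ⟨r, hr, rfl⟩ := hx
    rw [mem_range] at hr
    rw [hE, Finset.mem_image]
    refine ⟨l' + r, ?_, by omega⟩
    rw [mem_range, Nat.succ_mul]
    omega
  have hcard : (E \ D).card = X.dim := by
    rw [Finset.card_sdiff_of_subset hDE, hE, hD, card_arith, card_arith, Nat.succ_mul]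
    omega
  rw [← hcard]
  apply algDim_le_card
  intro c hc hbot hF s
  induction s using Nat.strong_induction_on with
  | _ s ih =>
  by_cases hgr : W.gr (pw X (m + 1)) s = ⊥
  · exact hbot s hgr
  have hse : Even s := by
    rcases Nat.even_or_odd s with h1 | h1
    · exact h1
    · exact absurd (odd_bot hodd m s h1) hgr
  have hsd : s ≤ 2 * ((m + 1) * X.dim) := by
    have := (dual_ne_bot hgr).1
    rwa [pw_dim] at this
  obtain ⟨s', rfl⟩ := hse
  have hsE : s' + s' ∈ E := by
    rw [hE, Finset.mem_image]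
    exact ⟨s', by rw [mem_range]; omega, by omega⟩
  by_cases hsD : s' + s' ∈ D
  · rw [hD, Finset.mem_image] at hsD
    obtain ⟨r, hr, hr'⟩ := hsD
    rw [mem_range] at hr
    have h1 := hs.rel (b := 0) hX m (c := c) (by rwa [Nat.zero_add]) (s := r) (by omega)
    rw [← hr', ← h1]
    exact ih _ (by omega)
  · exact hF _ (Finset.mem_sdiff.2 ⟨hsE, hsD⟩)

lemma bound_one {a l : ℕ} (hal : a < l) (hl : W.gr X l ≠ ⊥) (hs : Same W X a l) :
    algDim W X ≤ 2 * X.dim := by
  classical
  have hl2 : l ≤ 2 * X.dim := (dual_ne_bot hl).1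
  have hcard : ((range (2 * X.dim + 1)).erase l).card = 2 * X.dim := by
    rw [Finset.card_erase_of_mem (mem_range.2 (by omega)), card_range]
    rfl
  rw [← hcard]
  apply algDim_le_card
  intro c hc hbot hF s
  have key : ∀ t, t ≠ l → c t = 0 := by
    intro t ht
    by_cases hgr : W.gr X t = ⊥
    · exact hbot t hgr
    · have h1 := (dual_ne_bot hgr).1
      exact hF t (Finset.mem_erase.2 ⟨ht, mem_range.2 (by omega)⟩)
  by_cases hsl : s = l
  · rw [hsl, ← hs c hc]
    exact key a (by omega)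
  · exact key s hsl

/-- The general case. -/
lemma bound_odd (hX : Pairs W X) (hodd : HasOdd W X) {a l : ℕ} (hal : a < l)
    (hl : W.gr X l ≠ ⊥) (hs : Same W X a l) (m : ℕ) :
    algDim W (pw X (m + 2)) ≤ 3 * X.dim - 1 := by
  classical
  have hl2 : l ≤ 2 * X.dim := (dual_ne_bot hl).1
  -- the largest odd degree
  obtain ⟨j, hj, hjb, hjmax⟩ : ∃ j, Odd j ∧ W.gr X j ≠ ⊥ ∧ ∀ i, Odd i → j < i →
      W.gr X i = ⊥ := by
    obtain ⟨j0, hj0, hj0b⟩ := hodd
    have hne : ((degrees W X).filter fun i => Odd i).Nonempty :=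
      ⟨j0, Finset.mem_filter.2 ⟨mem_degrees.2 hj0b, hj0⟩⟩
    refine ⟨_, (Finset.mem_filter.1 (Finset.max'_mem _ hne)).2,
      mem_degrees.1 (Finset.mem_filter.1 (Finset.max'_mem _ hne)).1, fun i hi hji => ?_⟩
    by_contra hcon
    have h1 := Finset.le_max' ((degrees W X).filter fun i => Odd i) i
      (Finset.mem_filter.2 ⟨mem_degrees.2 hcon, hi⟩)
    omega
  have hj2 : j ≤ 2 * X.dim := (dual_ne_bot hjb).1
  have hjo := Nat.odd_iff.1 hj
  set D1 : Finset ℕ := (range ((m + 1) * X.dim + 1)).image fun r => l + 2 * r with hD1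
  set D2 : Finset ℕ := (range (m * X.dim + 1)).image fun r => (l + j) + 2 * r with hD2
  have hsub : D1 ∪ D2 ⊆ range (2 * ((m + 2) * X.dim) + 1) := by
    intro x hx
    have e1 : (m + 2) * X.dim = m * X.dim + 2 * X.dim := by ring
    have e2 : (m + 1) * X.dim = m * X.dim + X.dim := by ring
    rw [mem_range, e1]
    rcases Finset.mem_union.1 hx with hx | hx
    · rw [hD1, Finset.mem_image] at hx
      obtain ⟨r, hr, rfl⟩ := hx
      rw [mem_range, e2] at hr
      omega
    · rw [hD2, Finset.mem_image] at hx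
      obtain ⟨r, hr, rfl⟩ := hx
      rw [mem_range] at hr
      omega
  have hdisj : Disjoint D1 D2 := by
    rw [Finset.disjoint_left]
    intro x hx hx'
    rw [hD1, Finset.mem_image] at hx
    rw [hD2, Finset.mem_image] at hx'
    obtain ⟨r, _, hr⟩ := hx
    obtain ⟨r', _, hr'⟩ := hx'
    omega
  have hcard : (range (2 * ((m + 2) * X.dim) + 1) \ (D1 ∪ D2)).card = 3 * X.dim - 1 := by
    rw [Finset.card_sdiff_of_subset hsub, Finset.card_union_of_disjoint hdisj, hD1, hD2,
      card_arith, card_arith, card_range]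
    have e1 : (m + 2) * X.dim = m * X.dim + 2 * X.dim := by ring
    have e2 : (m + 1) * X.dim = m * X.dim + X.dim := by ring
    rw [e1, e2]
    omega
  rw [← hcard]
  apply algDim_le_card
  intro c hc hbot hF s
  induction s using Nat.strong_induction_on with
  | _ s ih =>
  by_cases hgr : W.gr (pw X (m + 2)) s = ⊥
  · exact hbot s hgr
  have hsd : s ≤ 2 * ((m + 2) * X.dim) := by
    have := (dual_ne_bot hgr).1
    rwa [pw_dim] at this
  have hrel : ∀ r ≤ (m + 1) * X.dim, c (a + 2 * r) = c (l + 2 * r) := fun r hr =>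
    hs.rel (b := 0) hX (m + 1) (c := c) (by rwa [Nat.zero_add]) hr
  by_cases h1 : s ∈ D1
  · rw [hD1, Finset.mem_image] at h1
    obtain ⟨r, hr, rfl⟩ := h1
    rw [mem_range] at hr
    rw [← hrel r (by omega)]
    exact ih _ (by omega)
  by_cases h2 : s ∈ D2
  · rw [hD2, Finset.mem_image] at h2
    obtain ⟨r, hr, rfl⟩ := h2
    rw [mem_range] at hr
    have h3 := hs.euler hX m hc (s := r) (by omega)
    rw [Finset.sum_eq_single_of_mem j (mem_range.2 (by omega))] at h3
    · have hb : ((-1 : W.K) ^ j * (W.betti X j : W.K)) ≠ 0 := by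
        apply mul_ne_zero (pow_ne_zero _ (neg_ne_zero.2 one_ne_zero))
        rw [Nat.cast_ne_zero]
        intro h0
        exact hjb (betti_eq_zero_iff.1 h0)
      have h4 := (mul_eq_zero.1 h3).resolve_right hb
      rw [ih (a + j + 2 * r) (by omega), sub_zero] at h4
      exact h4
    · intro i hi hij
      rw [mem_range] at hi
      rcases Nat.even_or_odd i with h5 | h5
      · obtain ⟨i', rfl⟩ := h5
        have h6 := hrel (i' + r) (by
          have e2 : (m + 1) * X.dim = m * X.dim + X.dim := by ring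
          rw [e2]
          omega)
        rw [show l + (i' + i') + 2 * r = l + 2 * (i' + r) by ring,
          show a + (i' + i') + 2 * r = a + 2 * (i' + r) by ring, h6, sub_self, zero_mul]
      · rcases lt_or_gt_of_ne hij with h6 | h6
        · rw [ih (l + i + 2 * r) (by omega), ih (a + i + 2 * r) (by omega), sub_self, zero_mul]
        · rw [betti_eq_zero_iff.2 (hjmax i h5 h6), Nat.cast_zero, mul_zero, mul_zero]
  · refine hF _ (Finset.mem_sdiff.2 ⟨mem_range.2 (by omega), ?_⟩)
    rw [Finset.mem_union]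
    tauto

/-- **The bound.** -/
theorem bound (hX : Pairs W X) (hC : ¬ AllSpan W X) (m : ℕ) :
    1 ≤ X.dim ∧ algDim W (pw X (m + 1)) ≤ 3 * X.dim - 1 := by
  obtain ⟨a, l, hal, ha, hl, hs⟩ := exists_same hC
  have hl2 : l ≤ 2 * X.dim := (dual_ne_bot hl).1
  have hd : 1 ≤ X.dim := by omega
  refine ⟨hd, ?_⟩
  by_cases hodd : HasOdd W X
  · rcases m with _ | m
    · have h1 := bound_one hal hl hs
      change algDim W X ≤ _
      omega
    · exact bound_odd hX hodd hal hl hs m
  · have h1 := bound_even hX hodd hal hl hs m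
    omega

/-- Among many degrees two are not separated. -/
lemma exists_same_pw (hX : Pairs W X) (hC : ¬ AllSpan W X) (m j : ℕ)
    (hne : ∀ r < 3 * X.dim, W.gr (pw X (m + 1)) (j + 2 * r) ≠ ⊥) :
    ∃ r p, 1 ≤ p ∧ r + p < 3 * X.dim ∧
      Same W (pw X (m + 1)) (j + 2 * r) (j + 2 * r + 2 * p) := by
  classical
  by_contra hcon
  push Not at hcon
  obtain ⟨hd, hb⟩ := bound hX hC m
  have key : ∀ r r', r < 3 * X.dim → r' < 3 * X.dim → r < r' →
      ∃ g, Mem W (pw X (m + 1)) g ∧ g (j + 2 * r) ≠ g (j + 2 * r') := by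
    intro r r' hr hr' hrr
    have h1 := hcon r (r' - r) (by omega) (by omega)
    rw [show j + 2 * r + 2 * (r' - r) = j + 2 * r' by omega] at h1
    unfold Same at h1
    push Not at h1
    exact h1
  have h2 := card_le_algDim (W := W) (Y := pw X (m + 1))
    ((range (3 * X.dim)).image fun r => j + 2 * r) (by
      intro x hx
      rw [Finset.mem_image] at hx
      obtain ⟨r, hr, rfl⟩ := hx
      exact hne r (mem_range.1 hr)) (by
      intro x hx y hy hyx
      rw [Finset.mem_image] at hx hy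
      obtain ⟨r, hr, rfl⟩ := hx
      obtain ⟨r', hr', rfl⟩ := hy
      rw [mem_range] at hr hr'
      rcases lt_trichotomy r r' with h3 | h3 | h3
      · exact key r r' hr hr' h3
      · exact absurd (by rw [h3]) hyx
      · obtain ⟨g, hg, hgr⟩ := key r' r hr' hr h3
        exact ⟨g, hg, hgr.symm⟩)
  rw [card_arith] at h2
  omega

/-- **Periodicity.** -/
theorem periodic (hX : Pairs W X) (hC : ¬ AllSpan W X) :
    ∃ p q, 1 ≤ p ∧ p ≤ 3 * X.dim - 1 ∧ 1 ≤ q ∧ q ≤ 3 * X.dim - 1 ∧
      ∀ n f, 1 ≤ n → Mem W (pw X n) f →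
        MiddlePeriodic X.dim (2 * (n * X.dim)) p q (HasOdd W X) f := by
  obtain ⟨hd, -⟩ := bound hX hC 0
  obtain ⟨r, p, hp1, hrp, hsame⟩ := exists_same_pw hX hC 2 0 (fun r hr => by
    rw [zero_add]
    exact even_ne hX 2 r (by omega))
  -- the even degrees
  have heven : ∀ n f, 1 ≤ n → Mem W (pw X n) f → ∀ t, 8 * X.dim ≤ t →
      t + 8 * X.dim ≤ 2 * (n * X.dim) → Even t → f (t + 2 * p) = f t := by
    intro n f hn hf t ht1 ht2 hte
    obtain ⟨t', rfl⟩ := hte
    have hn3 : 3 ≤ n := by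
      by_contra hcon
      have : n * X.dim ≤ 2 * X.dim := Nat.mul_le_mul_right _ (by omega)
      omega
    obtain ⟨m, rfl⟩ : ∃ m, n = 2 + m + 1 := ⟨n - 3, by omega⟩
    have e1 : (2 + m + 1) * X.dim = m * X.dim + 3 * X.dim := by ring
    rw [e1] at ht2
    have h1 := hsame.rel hX m hf (s := t' - r) (by omega)
    rw [show 0 + 2 * r + 2 * (t' - r) = t' + t' by omega,
      show 0 + 2 * r + 2 * p + 2 * (t' - r) = t' + t' + 2 * p by omega] at h1
    exact h1.symm
  by_cases hodd : HasOdd W X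
  · obtain ⟨j, hj, hjb⟩ := hodd
    have hj2 : j ≤ 2 * X.dim := (dual_ne_bot hjb).1
    have hjo := Nat.odd_iff.1 hj
    obtain ⟨r', q, hq1, hrq, hsame'⟩ := exists_same_pw hX hC 3 j (fun r hr =>
      odd_ne hX hjb 2 r (by omega))
    refine ⟨p, q, hp1, by omega, hq1, by omega, fun n f hn hf t ht1 ht2 =>
      ⟨heven n f hn hf t ht1 ht2, fun _ hto => ?_⟩⟩
    rw [Nat.odd_iff] at hto
    have hn4 : 4 ≤ n := by
      by_contra hcon
      have : n * X.dim ≤ 3 * X.dim := Nat.mul_le_mul_right _ (by omega)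
      omega
    obtain ⟨m, rfl⟩ : ∃ m, n = 3 + m + 1 := ⟨n - 4, by omega⟩
    have e1 : (3 + m + 1) * X.dim = m * X.dim + 4 * X.dim := by ring
    rw [e1] at ht2
    obtain ⟨s, hs⟩ : ∃ s, t = j + 2 * r' + 2 * s := ⟨(t - (j + 2 * r')) / 2, by omega⟩
    have h1 := hsame'.rel hX m hf (s := s) (by omega)
    rw [← hs, show j + 2 * r' + 2 * q + 2 * s = t + 2 * q by omega] at h1
    exact h1.symm
  · exact ⟨p, 1, hp1, by omega, le_rfl, by omega, fun n f hn hf t ht1 ht2 =>
      ⟨heven n f hn hf t ht1 ht2, fun h => absurd h hodd⟩⟩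

end Pool.Agent.Zk8.KL
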