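import Pool.Agent.N103.OC.Defs

/-!
# Algebraic combinations of the Kunneth components: definitions
-/

open CategoryTheory AlgebraicGeometry Finset

set_option autoImplicit false

universe u v

namespace Pool.Agent.Zk8.KL

open Pool.Agent.H914 VarClass Obj WeilCohomology Pool.Agent.N103.OC

section Alg

variable {K : Type*} {V : Type*} [Field K] [AddCommGroup V] [Module K V]

/-- The operator `a` acts on `gr i` as multiplication by `f i`, for all `i`; that is, `a` is the
combination `∑ f(i) π^i` of the projections `π^i` to the `gr i`. -/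
def ActsBy (gr : ℕ → Submodule K V) (a : Module.End K V) (f : ℕ → K) : Prop :=
  ∀ i, ∀ x ∈ gr i, a x = f i • x

lemma diag_zero (gr : ℕ → Submodule K V) : ∃ f, ActsBy gr (0 : Module.End K V) f :=
  ⟨fun _ => 0, fun i x _ => by rw [LinearMap.zero_apply, zero_smul]⟩

lemma diag_add (gr : ℕ → Submodule K V) {a b : Module.End K V} (ha : ∃ f, ActsBy gr a f)
    (hb : ∃ f, ActsBy gr b f) : ∃ f, ActsBy gr (a + b) f := by
  obtain ⟨f, hf⟩ := ha
  obtain ⟨g, hg⟩ := hb
  exact ⟨fun i => f i + g i, fun i x hx => by
    rw [LinearMap.add_apply, hf i x hx, hg i x hx, add_smul]⟩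

lemma diag_smul (gr : ℕ → Submodule K V) (c : K) {a : Module.End K V} (ha : ∃ f, ActsBy gr a f) :
    ∃ f, ActsBy gr (c • a) f := by
  obtain ⟨f, hf⟩ := ha
  exact ⟨fun i => c * f i, fun i x hx => by
    rw [LinearMap.smul_apply, hf i x hx, mul_smul]⟩

/-- The space of the combinations of the projections to the `gr i`. -/
def diagOps (gr : ℕ → Submodule K V) : Submodule K (Module.End K V) where
  carrier := {a | ∃ f, ActsBy gr a f}
  zero_mem' := diag_zero gr
  add_mem' := diag_add gr
  smul_mem' c _ := diag_smul gr c

/-- The space of the linear combinations of the operators `φ z`, for `z` with the property `p`. -/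
def spanOps {C : Type*} (p : C → Prop) (φ : C → V →ₗ[K] V) : Submodule K (Module.End K V) :=
  Submodule.span K {ψ : V →ₗ[K] V | ∃ z, p z ∧ φ z = ψ}

/-- Some linear combination of the operators `φ z`, for `z` with the property `p`, acts on `gr i` as
multiplication by `f i`, for all `i`. -/
def CombinationActsBy {C : Type*} (gr : ℕ → Submodule K V) (f : ℕ → K) (p : C → Prop)
    (φ : C → V →ₗ[K] V) : Prop :=
  ∃ a ∈ spanOps p φ, ActsBy gr a f

/-- The dimension of the space of the combinations of the projections to the `gr i` which are linear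
combinations of the operators `φ z`, for `z` with the property `p`. -/
noncomputable def combinationDim {C : Type*} (gr : ℕ → Submodule K V) (p : C → Prop)
    (φ : C → V →ₗ[K] V) : ℕ :=
  Module.finrank K ↥(spanOps p φ ⊓ diagOps gr)

end Alg

variable {k : Type u} [Field k] {𝒱 : VarClass k} {ops : CycleOps 𝒱}

/-- The combination `∑ f(i) π^i` of the Kunneth components of the diagonal of `Y` is algebraic: some
linear combination, with coefficients in the coefficient field `K` of the cohomology, of the operators
on `H(Y)` given by cycles of codimension `dim Y` on `Y × Y` acts on `H^i(Y)` as multiplication by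
`f(i)`. -/
def AlgComb (W : WeilCohomology.{u, v} ops) (Y : 𝒱.Obj) (f : ℕ → W.K) : Prop :=
  CombinationActsBy (W.gr Y) f ((Y.prod Y).IsCyc Y.dim) fun z => W.corr (W.cl (Y.prod Y) z)

/-- The dimension `κ(Y)` of the space of the combinations `∑ f(i) π^i` of the Kunneth components of the
diagonal of `Y`, with coefficients in `K`, which are algebraic. -/
noncomputable def algDim (W : WeilCohomology.{u, v} ops) (Y : 𝒱.Obj) : ℕ :=
  combinationDim (W.gr Y) ((Y.prod Y).IsCyc Y.dim) fun z => W.corr (W.cl (Y.prod Y) z)

open Classical in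
/-- The degrees `i` in which `Y` has cohomology: the `i` with `π^i ≠ 0`. -/
noncomputable def degrees (W : WeilCohomology.{u, v} ops) (Y : 𝒱.Obj) : Finset ℕ :=
  (range (2 * Y.dim + 1)).filter fun i => W.gr Y i ≠ ⊥

open Classical in
/-- The number of the different values of `f` at the degrees in which `Y` has cohomology. -/
noncomputable def numValues (W : WeilCohomology.{u, v} ops) (Y : 𝒱.Obj) (f : ℕ → W.K) : ℕ :=
  ((degrees W Y).image f).card

/-- The values `f(t)` are periodic in the middle range `8 d ≤ t ≤ N - 8 d`: of period `2 p` on the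
even numbers `t` and of period `2 q` on the odd ones (the odd ones are disregarded if `odd` is
false). -/
def MiddlePeriodic {K : Type*} (d N p q : ℕ) (odd : Prop) (f : ℕ → K) : Prop :=
  ∀ t, 8 * d ≤ t → t + 8 * d ≤ N →
    (Even t → f (t + 2 * p) = f t) ∧ (odd → Odd t → f (t + 2 * q) = f t)

/-- Some algebraic combination `∑ f(i) π^i` of the Kunneth components of `Y` takes at least `m`
different values `f(i)` at the degrees in which `Y` has cohomology. -/
def TakesValues (W : WeilCohomology.{u, v} ops) (Y : 𝒱.Obj) (m : ℕ) : Prop :=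
  ∃ f : ℕ → W.K, AlgComb W Y f ∧ m ≤ numValues W Y f

/-- There are `p, q ≤ 3 dim X - 1`, positive, such that for all powers `X ^ n` and all algebraic
combinations `∑ f(i) π^i` of the Kunneth components of `X ^ n` the function `f` is periodic in the
middle range, of period `2 p` on the even numbers and, if `X` has cohomology in some odd degree, of
period `2 q` on the odd ones. -/
def PeriodicPowers (W : WeilCohomology.{u, v} ops) (X : 𝒱.Obj) : Prop :=
  ∃ p q : ℕ, 1 ≤ p ∧ p ≤ 3 * X.dim - 1 ∧ 1 ≤ q ∧ q ≤ 3 * X.dim - 1 ∧
    ∀ n ≥ 1, ∀ f : ℕ → W.K, AlgComb W (pw X n) f →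
      MiddlePeriodic X.dim (2 * (n * X.dim)) p q (HasOdd W X) f

end Pool.Agent.Zk8.KL
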