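import Pool.Agent.N103.OC.Final
import Pool.Agent.Zk8.KL.Defs

/-!
# Algebraic combinations of the Kunneth components of powers
-/

set_option autoImplicit false

open CategoryTheory AlgebraicGeometry Finset TensorProduct

universe u v

namespace Pool.Agent.Zk8.KL

open Pool.Agent.H914 VarClass Obj WeilCohomology Pool.Agent.N190.CB Pool.Agent.N103.OC

variable {k : Type u} [Field k] {𝒱 : VarClass k} {ops : CycleOps 𝒱}
  {W : WeilCohomology.{u, v} ops} {X Y Z : 𝒱.Obj}

/-- The combination `∑ c(i) π^i` is algebraic. -/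
def Mem (W : WeilCohomology.{u, v} ops) (Y : 𝒱.Obj) (c : ℕ → W.K) : Prop :=
  scal (W.isInternal Y) c ∈ KOp W Y Y 0

/-- The linear combinations of the operators given by cycles. -/
noncomputable def algOps (W : WeilCohomology.{u, v} ops) (Y : 𝒱.Obj) :
    Submodule W.K (Module.End W.K (W.H Y)) :=
  spanOps ((Y.prod Y).IsCyc Y.dim) fun z => W.corr (W.cl (Y.prod Y) z)

lemma algDim_eq : algDim W Y = Module.finrank W.K ↥(algOps W Y ⊓ diagOps (W.gr Y)) := rfl

lemma algOps_eq : algOps W Y = KOp W Y Y 0 := by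
  rw [algOps, spanOps, KOp]
  congr 1
  ext φ
  constructor
  · rintro ⟨z, hz, rfl⟩
    exact ⟨Y.dim, by simp, z, hz, rfl⟩
  · rintro ⟨p, hp, z, hz, rfl⟩
    obtain rfl : p = Y.dim := by omega
    exact ⟨z, hz, rfl⟩

lemma eq_scal {a : Module.End W.K (W.H Y)} {f : ℕ → W.K} (h : ActsBy (W.gr Y) a f) :
    a = scal (W.isInternal Y) f := by
  apply gr_ext (W.isInternal Y)
  intro i x hx
  rw [h i x hx, scal_apply _ _ hx]

lemma actsBy_scal (f : ℕ → W.K) : ActsBy (W.gr Y) (scal (W.isInternal Y) f) f :=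
  fun _ _ hx => scal_apply _ _ hx

lemma algComb_iff {f : ℕ → W.K} : AlgComb W Y f ↔ Mem W Y f := by
  constructor
  · rintro ⟨a, ha, hf⟩
    change a ∈ algOps W Y at ha
    rw [algOps_eq, eq_scal hf] at ha
    exact ha
  · intro h
    exact ⟨_, by change _ ∈ algOps W Y; rw [algOps_eq]; exact h, actsBy_scal f⟩

lemma Mem.mul {f g : ℕ → W.K} (hf : Mem W Y f) (hg : Mem W Y g) :
    Mem W Y (fun i => f i * g i) := by
  unfold Mem
  rw [← scal_mul]
  exact (kop_class W).mul hf hg

lemma mem_one : Mem W Y (fun _ => 1) := by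
  unfold Mem
  rw [scal_one]
  exact KOp.id Y

lemma Mem.lin {g : ℕ → W.K} (hg : Mem W Y g) (a b : W.K) :
    Mem W Y (fun i => (g i - a) * b) := by
  have h1 : scal (W.isInternal Y) (fun i => (g i - a) * b) =
      b • (scal (W.isInternal Y) g - a • 1) := by
    apply gr_ext (W.isInternal Y)
    intro i x hx
    rw [scal_apply _ _ hx, LinearMap.smul_apply, LinearMap.sub_apply, scal_apply _ _ hx,
      LinearMap.smul_apply, Module.End.one_apply, ← sub_smul, smul_smul, mul_comm]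
  unfold Mem
  rw [h1]
  exact Submodule.smul_mem _ _ (Submodule.sub_mem _ hg (Submodule.smul_mem _ _ (KOp.id Y)))

/-- Interpolation. -/
lemma lagrange (S : Finset ℕ) (i : ℕ)
    (h : ∀ l ∈ S, l ≠ i → ∃ g, Mem W Y g ∧ g i ≠ g l) :
    ∃ c, Mem W Y c ∧ c i = 1 ∧ ∀ l ∈ S, l ≠ i → c l = 0 := by
  classical
  induction S using Finset.induction_on with
  | empty => exact ⟨_, mem_one, rfl, fun l hl => absurd hl (Finset.notMem_empty l)⟩
  | insert a S ha ih =>
    obtain ⟨c, hc, hc1, hc0⟩ := ih fun l hl hli => h l (Finset.mem_insert_of_mem hl) hli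
    by_cases hai : a = i
    · refine ⟨c, hc, hc1, fun l hl hli => ?_⟩
      rcases Finset.mem_insert.1 hl with rfl | hl
      · exact absurd hai hli
      · exact hc0 l hl hli
    · obtain ⟨g, hg, hgi⟩ := h a (Finset.mem_insert_self a S) hai
      refine ⟨_, hc.mul (hg.lin (g a) (g i - g a)⁻¹), ?_, fun l hl hli => ?_⟩
      · rw [hc1, one_mul, mul_inv_cancel₀ (sub_ne_zero.2 hgi)]
      · rcases Finset.mem_insert.1 hl with rfl | hl
        · rw [sub_self, zero_mul, mul_zero]
        · rw [hc0 l hl hli, zero_mul]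

lemma exists_ne {s : ℕ} (h : W.gr Y s ≠ ⊥) : ∃ x ∈ W.gr Y s, x ≠ 0 :=
  (Submodule.ne_bot_iff _).1 h

lemma mem_degrees {s : ℕ} : s ∈ degrees W Y ↔ W.gr Y s ≠ ⊥ := by
  classical
  unfold degrees
  rw [Finset.mem_filter, mem_range]
  refine ⟨fun h => h.2, fun h => ⟨?_, h⟩⟩
  by_contra hcon
  exact h (W.gr_eq_bot Y s (by omega))

/-- Separated degrees give independent combinations. -/
lemma card_le_algDim (S : Finset ℕ) (hS : ∀ x ∈ S, W.gr Y x ≠ ⊥)
    (h : ∀ x ∈ S, ∀ y ∈ S, y ≠ x → ∃ g, Mem W Y g ∧ g x ≠ g y) : S.card ≤ algDim W Y := by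
  classical
  rw [algDim_eq]
  have h1 : ∀ x : S, ∃ c, Mem W Y c ∧ c x = 1 ∧ ∀ l ∈ S, l ≠ x → c l = 0 := fun x =>
    lagrange S x fun l hl hlx => h x x.2 l hl hlx
  choose c hc hc1 hc0 using h1
  let v : S → ↥(algOps W Y ⊓ diagOps (W.gr Y)) := fun x =>
    ⟨scal (W.isInternal Y) (c x), by
      refine Submodule.mem_inf.2 ⟨?_, ⟨c x, actsBy_scal _⟩⟩
      rw [algOps_eq]
      exact hc x⟩
  let M : (S → W.K) →ₗ[W.K] ↥(algOps W Y ⊓ diagOps (W.gr Y)) :=
    ∑ x : S, (LinearMap.proj x : (S → W.K) →ₗ[W.K] W.K).smulRight (v x)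
  have hM : ∀ a : S → W.K, M a = ∑ x : S, a x • v x := by
    intro a
    change (∑ x : S, (LinearMap.proj x : (S → W.K) →ₗ[W.K] W.K).smulRight (v x)) a = _
    rw [LinearMap.sum_apply]
    rfl
  have hinj : Function.Injective M := by
    rw [injective_iff_map_eq_zero]
    intro a ha
    rw [hM] at ha
    funext y
    obtain ⟨z, hz, hz0⟩ := exists_ne (hS y y.2)
    have h2 : (∑ x : S, a x • scal (W.isInternal Y) (c x)) z = 0 := by
      have h3 := congrArg (algOps W Y ⊓ diagOps (W.gr Y)).subtype ha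
      rw [map_sum, map_zero] at h3
      have h4 : ∑ x : S, a x • scal (W.isInternal Y) (c x) = 0 := h3
      rw [h4, LinearMap.zero_apply]
    rw [LinearMap.sum_apply, Finset.sum_eq_single_of_mem y (Finset.mem_univ _)] at h2
    · rw [LinearMap.smul_apply, scal_apply _ _ hz, hc1, one_smul] at h2
      exact (smul_eq_zero.1 h2).resolve_right hz0
    · intro x _ hxy
      rw [LinearMap.smul_apply, scal_apply _ _ hz, hc0 x y y.2 (fun h3 => hxy (Subtype.ext h3.symm)),
        zero_smul, smul_zero]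
  have h3 := LinearMap.finrank_le_finrank_of_injective hinj
  rwa [Module.finrank_fintype_fun_eq_card, Fintype.card_coe] at h3

/-- An upper bound. -/
lemma algDim_le_card (F : Finset ℕ)
    (hF : ∀ c, Mem W Y c → (∀ i, W.gr Y i = ⊥ → c i = 0) → (∀ s ∈ F, c s = 0) → ∀ s, c s = 0) :
    algDim W Y ≤ F.card := by
  classical
  rw [algDim_eq]
  have h1 : ∀ s, ∃ (x : W.H Y) (φ : Module.Dual W.K (W.H Y)), x ∈ W.gr Y s ∧
      (W.gr Y s ≠ ⊥ → φ x = 1) := by
    intro s
    by_cases hs : W.gr Y s = ⊥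
    · exact ⟨0, 0, Submodule.zero_mem _, fun h => absurd hs h⟩
    · obtain ⟨x, hx, hx0⟩ := exists_ne hs
      obtain ⟨f, hf⟩ : ∃ f : Module.Dual W.K (W.H Y), f x ≠ 0 := by
        by_contra hcon
        push Not at hcon
        exact hx0 ((Module.forall_dual_apply_eq_zero_iff W.K _).1 hcon)
      refine ⟨x, (f x)⁻¹ • f, hx, fun _ => ?_⟩
      rw [LinearMap.smul_apply, smul_eq_mul, inv_mul_cancel₀ hf]
  choose x φ hx hφ using h1
  let L : ↥(algOps W Y ⊓ diagOps (W.gr Y)) →ₗ[W.K] (F → W.K) :=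
    LinearMap.pi fun s : F => φ s ∘ₗ (LinearMap.applyₗ (x s)) ∘ₗ
      (algOps W Y ⊓ diagOps (W.gr Y)).subtype
  have hL : ∀ (a : ↥(algOps W Y ⊓ diagOps (W.gr Y))) (s : F),
      L a s = φ s ((a : Module.End W.K (W.H Y)) (x s)) := fun _ _ => rfl
  have hinj : Function.Injective L := by
    rw [injective_iff_map_eq_zero]
    rintro ⟨a, ha⟩ hLa
    obtain ⟨ha1, f, hf⟩ := Submodule.mem_inf.1 ha
    rw [algOps_eq] at ha1
    set c : ℕ → W.K := fun s => if W.gr Y s = ⊥ then 0 else f s with hc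
    have hac : ActsBy (W.gr Y) a c := by
      intro i y hy
      rw [hc]
      dsimp only
      split_ifs with hi
      · rw [hi, Submodule.mem_bot] at hy
        rw [hy, map_zero, smul_zero]
      · exact hf i y hy
    have hmem : Mem W Y c := by
      unfold Mem
      rw [← eq_scal hac]
      exact ha1
    have h0 : ∀ s, c s = 0 := by
      refine hF c hmem (fun i hi => if_pos hi) fun s hs => ?_
      by_cases hbot : W.gr Y s = ⊥
      · exact if_pos hbot
      · have h2 := congrFun hLa ⟨s, hs⟩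
        rw [hL] at h2
        change φ s (a (x s)) = 0 at h2
        rw [hac s (x s) (hx s), map_smul, hφ s hbot, smul_eq_mul, mul_one] at h2
        exact h2
    have h3 : a = 0 := by
      apply gr_ext (W.isInternal Y)
      intro i y hy
      rw [hac i y hy, h0, zero_smul, LinearMap.zero_apply]
    exact Subtype.ext h3
  have h4 := LinearMap.finrank_le_finrank_of_injective hinj
  rwa [Module.finrank_fintype_fun_eq_card, Fintype.card_coe] at h4

/-- From the powers to smaller powers. -/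
lemma down (hX : Pairs W X) (b m : ℕ) : ∀ c : ℕ → W.K, Mem W (pw X (b + m + 1)) c →
    ∀ s ≤ m * X.dim, Mem W (pw X (b + 1)) (fun i => c (i + 2 * s)) := by
  induction m with
  | zero =>
    intro c hc s hs
    rw [zero_mul, Nat.le_zero] at hs
    subst hs
    exact hc
  | succ m ih =>
    intro c hc s hs
    rw [Nat.succ_mul] at hs
    obtain ⟨s1, s2, h1, h2, h3⟩ : ∃ s1 s2, s1 ≤ m * X.dim ∧ s2 ≤ X.dim ∧ s1 + s2 = s := by
      by_cases hle : s ≤ m * X.dim
      · exact ⟨s, 0, hle, Nat.zero_le _, rfl⟩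
      · exact ⟨m * X.dim, s - m * X.dim, le_rfl, by omega, by omega⟩
    have h4 : Mem W (pw X (b + m + 1)) (fun i => c (i + 2 * s2)) :=
      (kop_class W).shift (X := pw X (b + m + 1)) hX hc h2
    have h5 := ih _ h4 s1 h1
    have e1 : (fun i => c (i + 2 * s1 + 2 * s2)) = fun i => c (i + 2 * s) := by
      funext i
      congr 1
      omega
    rwa [← e1]

/-- `k` and `l` are not separated by the algebraic combinations of the components of `Y`. -/
def Same (W : WeilCohomology.{u, v} ops) (Y : 𝒱.Obj) (k l : ℕ) : Prop :=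
  ∀ g, Mem W Y g → g k = g l

lemma Same.rel {b k l : ℕ} (h : Same W (pw X (b + 1)) k l) (hX : Pairs W X) (m : ℕ)
    {c : ℕ → W.K} (hc : Mem W (pw X (b + m + 1)) c) {s : ℕ} (hs : s ≤ m * X.dim) :
    c (k + 2 * s) = c (l + 2 * s) :=
  h _ (down hX b m c hc s hs)

/-- The second relation. -/
lemma Same.euler {k l : ℕ} (h : Same W X k l) (hX : Pairs W X) (m : ℕ)
    {c : ℕ → W.K} (hc : Mem W (pw X (m + 2)) c) {s : ℕ} (hs : s ≤ m * X.dim) :
    ∑ j ∈ range (2 * X.dim + 1), (c (l + j + 2 * s) - c (k + j + 2 * s)) *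
      ((-1 : W.K) ^ j * (W.betti X j : W.K)) = 0 := by
  have h1 : Mem W (pw X (1 + 1)) (fun i => c (i + 2 * s)) := by
    refine down hX 1 m c ?_ s hs
    rwa [show 1 + m + 1 = m + 2 by ring]
  have h2 := (kop_class W).euler (X := X) (Z := X) h1
  have h3 := h _ h2
  simp only [sub_mul, Finset.sum_sub_distrib]
  rw [sub_eq_zero]
  exact h3.symm

lemma pairs_ne (hX : Pairs W X) {r : ℕ} (hr : r ≤ X.dim) : W.gr X (2 * r) ≠ ⊥ := by
  obtain ⟨a, b, ha, hb, hab⟩ := hX r hr
  intro hbot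
  have h1 := W.cl_mem ha
  rw [hbot, Submodule.mem_bot] at h1
  rw [h1, mul_zero, map_zero] at hab
  exact hab rfl

lemma even_ne (hX : Pairs W X) (m : ℕ) : ∀ r ≤ (m + 1) * X.dim,
    W.gr (pw X (m + 1)) (2 * r) ≠ ⊥ := by
  induction m with
  | zero =>
    intro r hr
    rw [zero_add, one_mul] at hr
    exact pairs_ne hX hr
  | succ m ih =>
    intro r hr
    rw [Nat.succ_mul] at hr
    obtain ⟨s1, s2, h1, h2, h3⟩ : ∃ s1 s2, s1 ≤ (m + 1) * X.dim ∧ s2 ≤ X.dim ∧ s1 + s2 = r := by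
      by_cases hle : r ≤ (m + 1) * X.dim
      · exact ⟨r, 0, hle, Nat.zero_le _, rfl⟩
      · exact ⟨(m + 1) * X.dim, r - (m + 1) * X.dim, le_rfl, by omega, by omega⟩
    have h4 := prod_ne_bot (X := pw X (m + 1)) (Z := X) (ih s1 h1) (pairs_ne hX h2)
    rwa [show 2 * s1 + 2 * s2 = 2 * r by omega] at h4

lemma odd_ne (hX : Pairs W X) {j : ℕ} (hj : W.gr X j ≠ ⊥) (m r : ℕ)
    (hr : r ≤ (m + 1) * X.dim) : W.gr (pw X (m + 2)) (j + 2 * r) ≠ ⊥ := by
  have h4 := prod_ne_bot (X := pw X (m + 1)) (Z := X) (even_ne hX m r hr) hj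
  rwa [show 2 * r + j = j + 2 * r by omega] at h4

lemma gr_bot_of_proj {i : ℕ} (h : proj (W.isInternal Y) i = 0) : W.gr Y i = ⊥ := by
  rw [← range_proj (W.isInternal Y) i, h, LinearMap.range_zero]

lemma prod_ne {s : ℕ} (h : W.gr (Y.prod X) s ≠ ⊥) :
    ∃ i j, i + j = s ∧ W.gr Y i ≠ ⊥ ∧ W.gr X j ≠ ⊥ := by
  by_contra hcon
  push Not at hcon
  apply h
  apply gr_bot_of_proj
  rw [proj, scal_prod]
  refine Finset.sum_eq_zero fun i _ => Finset.sum_eq_zero fun j _ => ?_
  split_ifs with hij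
  · by_cases hi : W.gr Y i = ⊥
    · rw [proj_zero_of_bot hi]
      rw [one_smul]
      apply op_ext
      intro _ _ a _ b _
      rw [extOp_tmul, LinearMap.zero_apply, map_zero, zero_mul, LinearMap.zero_apply]
    · rw [proj_zero_of_bot (hcon i j hij hi)]
      rw [one_smul]
      apply op_ext
      intro _ _ a _ b _
      rw [extOp_tmul, LinearMap.zero_apply, map_zero, mul_zero, LinearMap.zero_apply]
  · rw [zero_smul]

lemma odd_bot (hX : ¬ HasOdd W X) (m : ℕ) : ∀ s, Odd s → W.gr (pw X (m + 1)) s = ⊥ := by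
  induction m with
  | zero =>
    intro s hs
    by_contra hcon
    exact hX ⟨s, hs, hcon⟩
  | succ m ih =>
    intro s hs
    by_contra hcon
    obtain ⟨i, j, hij, hi, hj⟩ := prod_ne (Y := pw X (m + 1)) (X := X) hcon
    rcases Nat.even_or_odd j with h1 | h1
    · have h2 : Odd i := by
        rw [← hij] at hs
        rw [Nat.odd_iff] at hs ⊢
        rw [Nat.even_iff] at h1
        omega
      exact hi (ih i h2)
    · exact hX ⟨j, h1, hj⟩

lemma allSpan_iff : AllSpan W X ↔ ∀ i, proj (W.isInternal X) i ∈ KOp W X X 0 :=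
  forall_congr' fun i => spanComponent_iff i

/-- If the conjecture fails there are two degrees which are not separated. -/
lemma exists_same (hC : ¬ AllSpan W X) : ∃ k l, k < l ∧ W.gr X k ≠ ⊥ ∧ W.gr X l ≠ ⊥ ∧
    Same W X k l := by
  by_contra hcon
  push Not at hcon
  apply hC
  rw [allSpan_iff]
  intro i
  by_cases hi : W.gr X i = ⊥
  · rw [proj_zero_of_bot hi]
    exact Submodule.zero_mem _
  obtain ⟨c, hc, hc1, hc0⟩ := lagrange (W := W) (Y := X) (degrees W X) i fun l hl hli => by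
    rw [mem_degrees] at hl
    rcases lt_or_gt_of_ne hli with h1 | h1
    · have h2 := hcon l i h1 hl hi
      unfold Same at h2
      push Not at h2
      obtain ⟨g, hg, hgl⟩ := h2
      exact ⟨g, hg, hgl.symm⟩
    · have h2 := hcon i l h1 hi hl
      unfold Same at h2
      push Not at h2
      exact h2
  have h3 : proj (W.isInternal X) i = scal (W.isInternal X) c := by
    apply gr_ext (W.isInternal X)
    intro j x hx
    rw [scal_apply _ _ hx]
    by_cases hj : j = i
    · subst hj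
      rw [proj_same _ hx, hc1, one_smul]
    · rw [proj_ne _ hx hj]
      by_cases hb : W.gr X j = ⊥
      · rw [hb, Submodule.mem_bot] at hx
        rw [hx, smul_zero]
      · rw [hc0 j (mem_degrees.2 hb) hj, zero_smul]
  rw [h3]
  exact hc

end Pool.Agent.Zk8.KL
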