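import Pool.Agent.Zk8.KL.Bnd

/-!
# The bounded-or-all law
-/

set_option autoImplicit false

open CategoryTheory AlgebraicGeometry Finset TensorProduct Filter

universe u v

namespace Pool.Agent.Zk8.KL

open Pool.Agent.H914 VarClass Obj WeilCohomology Pool.Agent.N190.CB Pool.Agent.N103.OC

variable {k : Type u} [Field k] {𝒱 : VarClass k} {ops : CycleOps 𝒱}
  {W : WeilCohomology.{u, v} ops} {X Y Z : 𝒱.Obj}

lemma mem_of_allSpan (h : AllSpan W Y) (f : ℕ → W.K) : Mem W Y f := by
  rw [allSpan_iff] at h
  unfold Mem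
  rw [scal_eq_sum (W.isInternal Y) W_hbd]
  exact Submodule.sum_mem _ fun i _ => Submodule.smul_mem _ _ (h i)

lemma card_degrees_le (h : AllSpan W Y) : (degrees W Y).card ≤ algDim W Y := by
  refine card_le_algDim _ (fun x hx => mem_degrees.1 hx) fun x _ y _ hyx => ?_
  exact ⟨fun i => (i : W.K), mem_of_allSpan h _, fun hcon => hyx (Nat.cast_injective hcon).symm⟩

lemma algDim_le_degrees : algDim W Y ≤ (degrees W Y).card := by
  apply algDim_le_card
  intro c _ hbot hF s
  by_cases hs : W.gr Y s = ⊥
  · exact hbot s hs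
  · exact hF s (mem_degrees.2 hs)

lemma algDim_lt (h : ¬ AllSpan W Y) : algDim W Y < (degrees W Y).card := by
  classical
  obtain ⟨a, l, hal, ha, hl, hs⟩ := exists_same h
  have h1 : algDim W Y ≤ ((degrees W Y).erase l).card := by
    apply algDim_le_card
    intro c hc hbot hF
    have key : ∀ t, t ≠ l → c t = 0 := by
      intro t ht
      by_cases hgr : W.gr Y t = ⊥
      · exact hbot t hgr
      · exact hF t (Finset.mem_erase.2 ⟨ht, mem_degrees.2 hgr⟩)
    intro s
    by_cases hsl : s = l
    · rw [hsl, ← hs c hc]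
      exact key a (by omega)
    · exact key s hsl
  have h2 := Finset.card_erase_lt_of_mem (mem_degrees.2 hl)
  omega

theorem allSpan_iff_card : AllSpan W Y ↔ algDim W Y = (degrees W Y).card := by
  constructor
  · intro h
    exact le_antisymm algDim_le_degrees (card_degrees_le h)
  · intro h
    by_contra hcon
    have := algDim_lt hcon
    omega

lemma allSpan_pw (h : AllSpan W X) (m : ℕ) : AllSpan W (pw X (m + 1)) := by
  rw [allSpan_iff] at *
  exact (kop_class W).pw_proj h m

lemma lower (hX : Pairs W X) (m : ℕ) : (m + 1) * X.dim + 1 ≤ (degrees W (pw X (m + 1))).card := by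
  rw [← card_arith 0 ((m + 1) * X.dim + 1)]
  apply Finset.card_le_card
  intro x hx
  rw [Finset.mem_image] at hx
  obtain ⟨r, hr, rfl⟩ := hx
  rw [mem_range] at hr
  rw [mem_degrees, zero_add]
  exact even_ne hX m r (by omega)

/-- Many different values. -/
lemma numValues_le {f : ℕ → W.K} (hf : Mem W Y f) : numValues W Y f ≤ algDim W Y := by
  classical
  unfold numValues
  obtain ⟨S, hS, hSf⟩ : ∃ S ⊆ degrees W Y, S.image f = (degrees W Y).image f ∧
      Set.InjOn f S := by
    obtain ⟨S, hS1, hS2, hS3⟩ := Finset.exists_subset_injOn_image_eq_of_surjOn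
      (f := f) (s := degrees W Y) ((degrees W Y).image f) (fun y hy => by
        rw [Finset.mem_coe, Finset.mem_image] at hy
        obtain ⟨x, hx, rfl⟩ := hy
        exact ⟨x, hx, rfl⟩)
    exact ⟨S, hS1, hS3, hS2⟩
  rw [← hSf.1, Finset.card_image_of_injOn hSf.2]
  refine card_le_algDim S (fun x hx => mem_degrees.1 (hS hx)) fun x hx y hy hyx => ?_
  exact ⟨f, hf, fun hcon => hyx (hSf.2 hx hy hcon).symm⟩

end Pool.Agent.Zk8.KL
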